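import Pool.Agent.Helper45.CF.GoalsD

/-!
# Packet CF2-FUB (MP_d97caa_an): finite unions of boxes
-/

set_option autoImplicit false

open scoped ComplexOrder Topology
open TopologicalSpace Filter

namespace Pool.Agent.Helper79.CF2

open Pool.Agent.Helper34.CAR Pool.Agent.Helper39.CR Pool.Agent.Helper45.CF

/-- the statement for one set -/
def PP (T : Theory) (S : Set (ℕ → unitInterval)) : Prop :=
  ∀ [CompactSpace ↥S], T.Zero C(↥S, ℂ)

lemma closed_iUnion {n : ℕ} (a b : Fin n → ℕ → unitInterval) :
    IsClosed (⋃ i, Set.Icc (a i) (b i)) :=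
  isClosed_iUnion_of_finite fun _ => isClosed_Icc

theorem fub (hB : S_BOXZ) (hM : S_MVC) (T : Theory) : ∀ (n : ℕ)
    (a b : Fin n → ℕ → unitInterval), PP T (⋃ i, Set.Icc (a i) (b i)) := by
  intro n
  induction n with
  | zero =>
    intro a b
    have h : (⋃ i, Set.Icc (a i) (b i)) =
        Set.Icc (fun _ => 1 : ℕ → unitInterval) (fun _ => 0) := by
      rw [Set.iUnion_of_empty, eq_comm, Set.Icc_eq_empty]
      intro h1
      have h2 : (1 : unitInterval) ≤ 0 := h1 0
      exact absurd h2 (not_le.2 zero_lt_one)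
    rw [h]
    intro _
    exact hB T _ _
  | succ n ih =>
    intro a b
    have h : (⋃ i, Set.Icc (a i) (b i)) =
        (⋃ i : Fin n, Set.Icc (a i.castSucc) (b i.castSucc)) ∪
          Set.Icc (a (Fin.last n)) (b (Fin.last n)) := by
      ext x
      simp only [Set.mem_iUnion, Set.mem_union]
      constructor
      · rintro ⟨i, hi⟩
        refine Fin.lastCases (fun hi => Or.inr hi) (fun j hj => Or.inl ⟨j, hj⟩) i hi
      · rintro (⟨j, hj⟩ | hx)
        · exact ⟨_, hj⟩
        · exact ⟨_, hx⟩
    rw [h]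
    set K := ⋃ i : Fin n, Set.Icc (a i.castSucc) (b i.castSucc) with hK
    set L := Set.Icc (a (Fin.last n)) (b (Fin.last n)) with hL
    have hKc : IsClosed K := closed_iUnion _ _
    have hLc : IsClosed L := isClosed_Icc
    intro _
    have i1 : CompactSpace ↥K := isCompact_iff_compactSpace.1 hKc.isCompact
    have i2 : CompactSpace ↥L := isCompact_iff_compactSpace.1 hLc.isCompact
    have i3 : CompactSpace ↥(K ∩ L) := isCompact_iff_compactSpace.1 (hKc.inter hLc).isCompact
    have h3 : PP T (K ∩ L) := by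
      have e : K ∩ L = ⋃ i : Fin n, Set.Icc (a i.castSucc ⊔ a (Fin.last n))
          (b i.castSucc ⊓ b (Fin.last n)) := by
        rw [hK, Set.iUnion_inter]
        refine Set.iUnion_congr fun i => ?_
        rw [hL, Set.Icc_inter_Icc]
      rw [e]
      intro _
      exact ih (fun i => a i.castSucc ⊔ a (Fin.last n)) (fun i => b i.castSucc ⊓ b (Fin.last n))
    have h1 : PP T K := ih (fun i => a i.castSucc) (fun i => b i.castSucc)
    exact hM T _ K L h1 (hB T _ _) h3

theorem t (hB : S_BOXZ) (hM : S_MVC) : S_FUB := fun T n a b _ => fub hB hM T n a b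

end Pool.Agent.Helper79.CF2
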