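import Pool.Agent.Helper45.CF.GoalsC
import Pool.Agent.Helper34.CAR.Parts

/-!
Project CF stage 2 (MP_d97caa_an), packet GMAP (helper79): trivialisation of a field.
-/

set_option autoImplicit false

namespace Pool.Agent.Helper79.CF2.GMAP

open Pool.Agent.Helper34.CAR Pool.Agent.Helper45.CF

noncomputable section

theorem nm {A B : Type} [CStarAlgebra A] [CStarAlgebra B] (φ : A →⋆ₐ[ℂ] B) (a : A) :
    ‖φ a‖ ≤ ‖a‖ := NonUnitalStarAlgHom.norm_apply_le φ a

theorem ni {A B : Type} [CStarAlgebra A] [CStarAlgebra B] (φ : A →⋆ₐ[ℂ] B)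
    (h : Function.Injective φ) (a : A) : ‖φ a‖ = ‖a‖ := NonUnitalStarAlgHom.norm_map φ h a

theorem t : S_GMAP := by
  intro X H M _ _ _ _ A N _ _ ι κ τ ν μ hι hcomp hdense hκ hτ hτκ hμ hμν hap
  have hμc : ∀ i, Continuous (μ i) := fun i =>
    AddMonoidHomClass.continuous_of_bound (μ i) 1 fun a => by rw [one_mul]; exact nm (μ i) a
  have hτi : ∀ i, Function.Injective (τ i) := by
    intro i
    rw [injective_iff_map_eq_zero]
    intro z hz
    ext x
    have h := hτ i z x
    rw [hz, ContinuousMap.zero_apply, norm_zero] at h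
    exact norm_eq_zero.1 h.symm
  let f : ∀ i, C(X, N i) →⋆ₐ[ℂ] C(X, M) := fun i => ContinuousMap.compStarAlgHom X (μ i) (hμc i)
  have hf : ∀ i z x, f i z x = μ i (z x) := fun i z x => rfl
  let J : ∀ i, C(X, N i) →⋆ₐ[ℂ] H := fun i => (ι i).comp (τ i)
  have hJ : ∀ i z, J i z = ι i (τ i z) := fun i z => rfl
  -- the sequences
  have hseq : ∀ (j : ℕ) (b : C(X, A j)), ∃ a : ∀ k, C(X, A (j + k)), a 0 = b ∧
      (∀ k, a (k + 1) = κ (j + k) (a k)) := by
    intro j b
    exact ⟨fun k => Nat.rec (motive := fun k => C(X, A (j + k))) b (fun k y => κ (j + k) y) k,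
      rfl, fun k => rfl⟩
  have hseqι : ∀ (j : ℕ) (b : C(X, A j)) (a : ∀ k, C(X, A (j + k))), a 0 = b →
      (∀ k, a (k + 1) = κ (j + k) (a k)) → ∀ k, ι (j + k) (a k) = ι j b := by
    intro j b a h0 h1 k
    induction k with
    | zero => exact congrArg (ι j) h0
    | succ k ih =>
      rw [← ih, ← hcomp (j + k) (a k), ← h1 k]
      rfl
  have hseqn : ∀ (j : ℕ) (b : C(X, A j)) (a : ∀ k, C(X, A (j + k))), a 0 = b →
      (∀ k, a (k + 1) = κ (j + k) (a k)) → ∀ k x, ‖a k x‖ = ‖b x‖ := by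
    intro j b a h0 h1 k x
    induction k with
    | zero => rw [← h0]
    | succ k ih =>
      rw [← ih, ← hκ (j + k) (a k) x, ← h1 k]
  have hd : Dense (⋃ i, Set.range fun z => J i z) := by
    intro h
    rw [Metric.mem_closure_iff]
    intro ε hε
    obtain ⟨y, hy, hyd⟩ := Metric.mem_closure_iff.1 (hdense h) (ε / 2) (by positivity)
    obtain ⟨j, b, rfl⟩ := Set.mem_iUnion.1 hy
    obtain ⟨a, h0, h1⟩ := hseq j b
    obtain ⟨k, z, hz⟩ := hap j a h1 (ε / 2) (by positivity)
    refine ⟨J (j + k) z, Set.mem_iUnion.2 ⟨j + k, z, rfl⟩, ?_⟩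
    have e1 : dist (ι j b) (J (j + k) z) < ε / 2 := by
      rw [← hseqι j b a h0 h1 k, hJ, dist_eq_norm, ← map_sub]
      exact (nm _ _).trans_lt hz
    have := dist_triangle h (ι j b) (J (j + k) z)
    have h2 : dist h (ι j b) < ε / 2 := hyd
    linarith
  obtain ⟨F, hF⟩ := t_EXT H C(X, M) (fun i => C(X, N i))
    (fun i => (J i : C(X, N i) →⋆ₙₐ[ℂ] H)) (fun i => (f i : C(X, N i) →⋆ₙₐ[ℂ] C(X, M)))
    (fun i => (hι i).comp (hτi i)) (by
      intro i z
      refine ⟨⟨fun x => ν i (z x), ?_⟩, ?_, ?_⟩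
      · have hνc : Continuous (ν i) :=
          AddMonoidHomClass.continuous_of_bound (ν i) 1 fun a => by rw [one_mul]; exact nm (ν i) a
        exact hνc.comp z.continuous
      · show ι (i + 1) (τ (i + 1) _) = ι i (τ i z)
        rw [hτκ i z _ (fun x => rfl), hcomp]
      · ext x
        exact hμν i (z x)) hd
  have hF' : ∀ i z, F (ι i (τ i z)) = f i z := fun i z => hF i z
  have hF1 : F 1 = 1 := by
    have h := hF' 0 1
    have h1 : ι 0 (τ 0 1) = 1 := by rw [map_one, map_one]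
    have h2 : f 0 1 = 1 := map_one (f 0)
    rwa [h1, h2] at h
  let G : H →⋆ₐ[ℂ] C(X, M) :=
    { toFun := F
      map_one' := hF1
      map_mul' := map_mul F
      map_zero' := map_zero F
      map_add' := map_add F
      commutes' := fun c => by
        rw [Algebra.algebraMap_eq_smul_one, Algebra.algebraMap_eq_smul_one, map_smul, hF1]
      map_star' := map_star F }
  have hG : ∀ h, G h = F h := fun h => rfl
  refine ⟨G, fun i z x => ?_, fun i a x => ?_⟩
  · rw [hG, hF', hf]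
  · obtain ⟨s, h0, h1⟩ := hseq i a
    have key : ∀ ε : ℝ, 0 < ε → |‖G (ι i a) x‖ - ‖a x‖| ≤ 2 * ε := by
      intro ε hε
      obtain ⟨k, z, hz⟩ := hap i s h1 ε hε
      have e1 : ‖G (ι i a) x - μ (i + k) (z x)‖ ≤ ε := by
        rw [← hseqι i a s h0 h1 k]
        have e2 : G (ι (i + k) (s k)) x - μ (i + k) (z x)
            = (G (ι (i + k) (s k - τ (i + k) z))) x := by
          rw [map_sub, map_sub, ContinuousMap.sub_apply, hG (ι (i + k) (τ (i + k) z)), hF', hf]
        rw [e2]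
        exact ((ContinuousMap.norm_coe_le_norm _ x).trans ((nm _ _).trans (nm _ _))).trans hz.le
      have e3 : ‖μ (i + k) (z x)‖ = ‖τ (i + k) z x‖ := by
        rw [ni (μ (i + k)) (hμ _), hτ]
      have e4 : ‖s k x - τ (i + k) z x‖ ≤ ε := by
        rw [← ContinuousMap.sub_apply]
        exact (ContinuousMap.norm_coe_le_norm _ x).trans hz.le
      have e5 := abs_norm_sub_norm_le (G (ι i a) x) (μ (i + k) (z x))
      have e6 := abs_norm_sub_norm_le (s k x) (τ (i + k) z x)
      rw [hseqn i a s h0 h1 k x] at e6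
      rw [e3] at e5
      have e7 := abs_sub_le (‖G (ι i a) x‖) (‖τ (i + k) z x‖) (‖a x‖)
      rw [abs_sub_comm (‖τ (i + k) z x‖)] at e7
      linarith
    have h2 : |‖G (ι i a) x‖ - ‖a x‖| ≤ 0 := by
      refine le_of_forall_pos_le_add fun ε hε => ?_
      have := key (ε / 2) (by positivity)
      linarith
    exact sub_eq_zero.1 (abs_nonpos_iff.1 h2)

end

end Pool.Agent.Helper79.CF2.GMAP
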